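import Mathlib
import Pool.Agent.Results.MP_c45f9b_nt.Yes

namespace Pool.Agent.Results.MP_558e64_nt.Yes

open Nat Finset
open MP_c45f9b_nt.Yes (χ χ_mod)

/-- the sequence `a(n)` of the problem -/
def a (n : ℕ) : ℕ :=
  if n = 0 then 1 else ∑ j ∈ range n, n.choose j * (n - 1).choose j * (n + j - 1).choose j ^ 2

lemma term (N i : ℕ) (hp : (N + 1).Prime) (hi : i < N) : ∃ t : ℕ,
    (N + 1).choose (i + 1) * N.choose (i + 1) * (N + 1 + i).choose (i + 1) ^ 2 = (N + 1) ^ 3 * t ∧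
    ((i + 1 : ZMod ((N + 1) ^ 2))) ^ 4 * t = N - i := by
  obtain ⟨x, hx⟩ : N + 1 ∣ (N + 1).choose (i + 1) := hp.dvd_choose (by omega) (by omega) le_rfl
  obtain ⟨y, hy⟩ : N + 1 ∣ (N + 1 + i).choose (i + 1) := hp.dvd_choose (by omega) (by omega) (by omega)
  refine ⟨x * N.choose (i + 1) * y ^ 2, by rw [hx, hy]; ring, ?_⟩
  have e1 := Nat.add_one_mul_choose_eq N i
  have e2 := Nat.choose_succ_right_eq (N + 1 + i) i
  have e3 := congrArg (Nat.cast : ℕ → ZMod ((N + 1) ^ 2)) (Nat.choose_succ_right_eq N i)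
  rw [hx, mul_assoc] at e1
  rw [hy, Nat.add_sub_cancel, mul_assoc, mul_comm _ (N + 1)] at e2
  have e1 := congrArg (Nat.cast : ℕ → ZMod ((N + 1) ^ 2)) (Nat.eq_of_mul_eq_mul_left hp.pos e1)
  have e2 := congrArg (Nat.cast : ℕ → ZMod ((N + 1) ^ 2)) (Nat.eq_of_mul_eq_mul_left hp.pos e2)
  have c := χ_mod N i hp (by omega)
  have s : ((-1 : ZMod ((N + 1) ^ 2)) ^ i) ^ 2 = 1 := by rw [← pow_mul, mul_comm, pow_mul]; simp
  rw [Nat.cast_mul, Nat.cast_mul, Nat.cast_sub hi.le] at e3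
  unfold χ at c
  push_cast at e1 e2 e3 c ⊢
  rw [← c, e1, ← e2] at s
  rw [e1] at e3
  linear_combination (x * y ^ 2 * (i + 1) ^ 3) * e3 + (N - i) * s

theorem result (p : ℕ) (hp : p.Prime) (h5 : 5 ≤ p) : a p ≡ 1 [MOD p ^ 5] := by
  obtain ⟨N, rfl⟩ : ∃ N, p = N + 1 := ⟨p - 1, by omega⟩
  have := Fact.mk hp
  choose! t ht using fun i hi => term N i hp hi
  have e : a (N + 1) = 1 + (N + 1) ^ 3 * ∑ i ∈ range N, t i := by
    rw [a, if_neg (by omega), sum_range_succ', mul_sum, add_comm]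
    congr 1
    · simp
    · exact sum_congr rfl fun i hi => by rw [← (ht i (mem_range.1 hi)).1]; rfl
  have P2 : ((N : ZMod ((N + 1) ^ 2)) + 1) ^ 2 = 0 := by
    exact_mod_cast ZMod.natCast_self ((N + 1) ^ 2)
  have un : ∀ j, 0 < j → j < N + 1 → IsUnit ((j : ℕ) : ZMod ((N + 1) ^ 2)) := fun j h0 h1 =>
    (ZMod.isUnit_iff_coprime _ _).2 (Nat.Coprime.pow_right _
      (Nat.coprime_of_lt_prime (by omega) h1 hp).symm)
  have red : ∀ m : ℤ, ((m : ℤ) : ZMod (N + 1)) = 0 → ((N : ZMod ((N + 1) ^ 2)) + 1) * m = 0 := by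
    intro m hm
    obtain ⟨w, rfl⟩ := (ZMod.intCast_zmod_eq_zero_iff_dvd _ _).1 hm
    push_cast
    linear_combination w * P2
  have pair : ∀ i ∈ range N, (t i : ZMod ((N + 1) ^ 2)) + t (N - 1 - i) =
      5 * (N + 1) * (i + 1) ^ (N - 4) := by
    intro i hi
    have hi := mem_range.1 hi
    have h1 := (ht i hi).2
    have h2 := (ht (N - 1 - i) (by omega)).2
    have u1 := un (i + 1) (by omega) (by omega)
    have u2 := un (N - i) (by omega) (by omega)
    have f := red (((i + 1 : ℕ) : ℤ) ^ N - 1) (by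
      have := ZMod.pow_card_sub_one_eq_one (p := N + 1) (a := ((i + 1 : ℕ) : ZMod (N + 1)))
        (fun h => by have := Nat.le_of_dvd (by omega) ((ZMod.natCast_eq_zero_iff _ _).1 h); omega)
      rw [Int.cast_sub, Int.cast_pow, Int.cast_natCast, Int.cast_one]
      exact sub_eq_zero.2 this)
    rw [Nat.cast_sub (by omega), Nat.cast_sub (by omega)] at h2
    rw [Nat.cast_sub hi.le] at u2
    apply ((u1.pow 4).mul (u2.pow 4)).mul_left_cancel
    rw [← pow_sub_mul_pow _ (show 4 ≤ N by omega)] at f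
    push_cast at f h2 ⊢
    generalize ((i : ZMod ((N + 1) ^ 2)) + 1) ^ (N - 4) = W at f ⊢
    linear_combination (N - i) ^ 4 * h1 + (i + 1) ^ 4 * h2 - 5 * (N - i) ^ 4 * f +
      (-4 * (N + 1) ^ 3 + 15 * (N + 1) ^ 2 * (i + 1) - 20 * (N + 1) * (i + 1) ^ 2
        + 10 * (i + 1) ^ 3) * P2
  have s : ((∑ i ∈ range N, t i : ℕ) : ZMod ((N + 1) ^ 2)) = 0 := by
    have h := sum_congr rfl pair
    rw [sum_add_distrib, sum_range_reflect (fun i => (t i : ZMod ((N + 1) ^ 2))), ← mul_sum] at h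
    apply (un 2 (by omega) (by omega)).mul_left_cancel
    push_cast
    rw [two_mul, h, mul_zero]
    rcases eq_or_lt_of_le h5 with h4 | h4
    · have : (N : ZMod ((N + 1) ^ 2)) + 1 = 5 := by exact_mod_cast congrArg Nat.cast h4.symm
      rw [← this, ← sq, P2, zero_mul]
    · have := red (∑ i ∈ range N, ((i + 1 : ℕ) : ℤ) ^ (N - 4)) (by
        have := FiniteField.sum_pow_lt_card_sub_one (ZMod (N + 1)) (N - 4) (by
          rw [ZMod.card]; omega)
        rw [← this]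
        refine Eq.trans ?_ (Fin.sum_univ_eq_sum_range (fun j => ((j : ℕ) : ZMod (N + 1)) ^ (N - 4))
          (N + 1)).symm |>.trans (sum_congr rfl fun j _ => congrArg (· ^ (N - 4)) (ZMod.natCast_zmod_val (n := N + 1) j))
        rw [sum_range_succ', Nat.cast_zero, zero_pow (by omega), add_zero]
        push_cast
        rfl)
      push_cast at this
      rw [mul_assoc, this, mul_zero]
  obtain ⟨w, hw⟩ := (ZMod.natCast_eq_zero_iff _ _).1 s
  rw [e, hw, ← mul_assoc, ← pow_add]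
  exact (Nat.modEq_iff_dvd' (by omega)).2 (by simp) |>.symm

end Pool.Agent.Results.MP_558e64_nt.Yes
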